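import Mathlib
import Pool.Agent.H640R2.PhaseMuC

/-!
# The centre of an operator: the scalar `z` with the smallest `‖X - z‖` is the expectation of `X` at
a unit vector where the norm of `X - z` is attained

(adapted from `Pool.Agent.R258.Variance`)
-/

set_option autoImplicit false

open Complex ComplexConjugate Filter Topology

namespace Pool.Agent.J4.H91.CQ

variable {E : Type*} [NormedAddCommGroup E] [InnerProductSpace ℂ E] [FiniteDimensional ℂ E]

/-- `‖(X - z) x‖²` -/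
noncomputable def g (X : E →L[ℂ] E) (z : ℂ) (x : E) : ℝ := ‖X x - z • x‖ ^ 2

/-- expansion in `z` -/
lemma g_expand (X : E →L[ℂ] E) (z : ℂ) (x : E) :
    g X z x = ‖X x‖ ^ 2 - 2 * (conj z * inner ℂ x (X x)).re + ‖z‖ ^ 2 * ‖x‖ ^ 2 := by
  unfold g
  rw [@norm_sub_sq ℂ]
  simp only [inner_smul_right, norm_smul, RCLike.re_to_complex, mul_pow]
  have h1 : (z * inner ℂ (X x) x).re = (conj z * inner ℂ x (X x)).re := by
    rw [← inner_conj_symm (𝕜 := ℂ) (X x) x, ← Complex.conj_re, map_mul, Complex.conj_conj]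
  rw [h1]

lemma continuous_g (X : E →L[ℂ] E) : Continuous (fun p : ℂ × E => g X p.1 p.2) := by
  unfold g
  fun_prop

lemma g_smul (X : E →L[ℂ] E) (z c : ℂ) (x : E) : g X z (c • x) = ‖c‖ ^ 2 * g X z x := by
  unfold g
  rw [map_smul, smul_comm z c, ← smul_sub, norm_smul]
  ring

/-- parallelogram identity for `g` -/
lemma g_parallelogram (X : E →L[ℂ] E) (z : ℂ) (x y : E) :
    g X z (x + y) + g X z (x - y) = 2 * (g X z x + g X z y) := by
  unfold g
  have h1 := parallelogram_law_with_norm ℂ (X x - z • x) (X y - z • y)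
  rw [show X (x + y) - z • (x + y) = (X x - z • x) + (X y - z • y) by
      rw [map_add, smul_add]; abel,
    show X (x - y) - z • (x - y) = (X x - z • x) - (X y - z • y) by
      rw [map_sub, smul_sub]; abel]
  nlinarith [h1]

/-- The largest value of `g` on the unit sphere. -/
noncomputable def G (X : E →L[ℂ] E) (z : ℂ) : ℝ := sSup ((fun x => g X z x) '' Metric.sphere 0 1)

lemma sphere_compact : IsCompact (Metric.sphere (0 : E) 1) := by
  have : ProperSpace E := FiniteDimensional.proper ℂ E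
  exact isCompact_sphere 0 1

lemma g_le_G (X : E →L[ℂ] E) (z : ℂ) {x : E} (hx : ‖x‖ = 1) : g X z x ≤ G X z := by
  have hc : Continuous (fun x : E => g X z x) :=
    (continuous_g X).comp (continuous_const.prodMk continuous_id)
  refine le_csSup ?_ ⟨x, by simpa using hx, rfl⟩
  exact (sphere_compact.image hc).bddAbove

lemma exists_eq_G [Nontrivial E] (X : E →L[ℂ] E) (z : ℂ) : ∃ x : E, ‖x‖ = 1 ∧ g X z x = G X z := by
  have hc : Continuous (fun x : E => g X z x) :=
    (continuous_g X).comp (continuous_const.prodMk continuous_id)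
  have hne : (Metric.sphere (0 : E) 1).Nonempty := by
    obtain ⟨x, hx⟩ := exists_norm_eq E (zero_le_one (α := ℝ))
    exact ⟨x, by simpa using hx⟩
  obtain ⟨x, hx, hxe⟩ := sphere_compact.exists_sSup_image_eq hne hc.continuousOn
  exact ⟨x, by simpa using hx, hxe.symm⟩

lemma continuous_G (X : E →L[ℂ] E) : Continuous (G X) := by
  unfold G
  exact sphere_compact.continuous_sSup (continuous_g X)

/-- `G` attains its minimum. -/
lemma exists_min [Nontrivial E] (X : E →L[ℂ] E) : ∃ z₀, ∀ z, G X z₀ ≤ G X z := by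
  apply (continuous_G X).exists_forall_le
  obtain ⟨x, hx⟩ := exists_norm_eq E (zero_le_one (α := ℝ))
  have h1 : ∀ z : ℂ, ‖z‖ - ‖X‖ - 1 ≤ G X z := by
    intro z
    refine le_trans ?_ (g_le_G X z hx)
    have h2 : ‖z‖ - ‖X‖ ≤ ‖X x - z • x‖ := by
      have h3 : ‖z • x‖ - ‖X x‖ ≤ ‖X x - z • x‖ := by
        rw [norm_sub_rev]; exact norm_sub_norm_le _ _
      rw [norm_smul, hx, mul_one] at h3
      have h4 : ‖X x‖ ≤ ‖X‖ := by
        have := X.le_opNorm x
        rwa [hx, mul_one] at this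
      linarith
    have h5 : ‖X x - z • x‖ - 1 ≤ ‖X x - z • x‖ ^ 2 := by
      nlinarith [sq_nonneg (‖X x - z • x‖ - 1 / 2)]
    unfold g
    linarith
  refine tendsto_atTop_mono h1 ?_
  have : Tendsto (fun z : ℂ => ‖z‖ + (-‖X‖ - 1)) (cocompact ℂ) atTop :=
    tendsto_atTop_add_const_right _ _ tendsto_norm_cocompact_atTop
  refine this.congr fun z => by ring

/-- In every direction `w` there is a top vector whose expectation does not lie on the positive
side. -/
lemma direction [Nontrivial E] (X : E →L[ℂ] E) {z₀ : ℂ} (hz : ∀ z, G X z₀ ≤ G X z) (w : ℂ) :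
    ∃ x : E, ‖x‖ = 1 ∧ g X z₀ x = G X z₀ ∧ (conj w * (inner ℂ x (X x) - z₀)).re ≤ 0 := by
  have hseq : ∀ k : ℕ, ∃ x : E, ‖x‖ = 1 ∧
      g X (z₀ + (((1 : ℝ) / (k + 1) : ℝ) : ℂ) * w) x =
        G X (z₀ + (((1 : ℝ) / (k + 1) : ℝ) : ℂ) * w) := fun k => exists_eq_G X _
  choose u hu1 hu2 using hseq
  obtain ⟨x, hx, φ, hφ, hlim⟩ := sphere_compact.tendsto_subseq
    (x := u) (fun k => by simpa using hu1 k)
  have hx1 : ‖x‖ = 1 := by simpa using hx
  have ht : Tendsto (fun k : ℕ => ((1 : ℝ) / ((φ k : ℕ) + 1))) atTop (𝓝 0) :=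
    tendsto_one_div_add_atTop_nhds_zero_nat.comp hφ.tendsto_atTop
  have htc : Tendsto (fun k : ℕ => ((((1 : ℝ) / ((φ k : ℕ) + 1) : ℝ)) : ℂ)) atTop (𝓝 0) := by
    have := (Complex.continuous_ofReal.tendsto 0).comp ht
    rw [Complex.ofReal_zero] at this
    exact this
  refine ⟨x, hx1, ?_, ?_⟩
  · refine le_antisymm (g_le_G X z₀ hx1) ?_
    have hp1 : Tendsto (fun k : ℕ => z₀ + (((1 : ℝ) / ((φ k : ℕ) + 1) : ℝ) : ℂ) * w)
        atTop (𝓝 z₀) := by
      have := (tendsto_const_nhds (x := z₀)).add (htc.mul_const w)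
      rwa [zero_mul, add_zero] at this
    have hp : Tendsto (fun k : ℕ => ((z₀ + (((1 : ℝ) / ((φ k : ℕ) + 1) : ℝ) : ℂ) * w), u (φ k)))
        atTop (𝓝 (z₀, x)) := hp1.prodMk_nhds hlim
    have h1 := ((continuous_g X).tendsto (z₀, x)).comp hp
    refine ge_of_tendsto' h1 fun k => ?_
    have h2 := hu2 (φ k)
    show G X z₀ ≤ g X (z₀ + (((1 : ℝ) / ((φ k : ℕ) + 1) : ℝ) : ℂ) * w) (u (φ k))
    rw [h2]
    exact hz _
  · have h2 : ∀ k : ℕ, (conj w * (inner ℂ (u (φ k)) (X (u (φ k))) - z₀)).re ≤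
        (1 / 2) * ((1 : ℝ) / ((φ k : ℕ) + 1)) * ‖w‖ ^ 2 := by
      intro k
      set t : ℝ := (1 : ℝ) / ((φ k : ℕ) + 1) with htdef
      have htpos : 0 < t := by rw [htdef]; positivity
      have h3 : g X z₀ (u (φ k)) ≤ g X (z₀ + (t : ℂ) * w) (u (φ k)) := by
        have h4 := hu2 (φ k)
        rw [← htdef] at h4
        rw [h4]
        exact (g_le_G X z₀ (hu1 _)).trans (hz _)
      rw [g_expand, g_expand, hu1] at h3
      have h5 : ‖z₀ + (t : ℂ) * w‖ ^ 2 = ‖z₀‖ ^ 2 + 2 * t * (conj w * z₀).re + t ^ 2 * ‖w‖ ^ 2 := by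
        rw [← Complex.normSq_eq_norm_sq, ← Complex.normSq_eq_norm_sq, ← Complex.normSq_eq_norm_sq,
          Complex.normSq_add, Complex.normSq_mul, Complex.normSq_ofReal]
        simp only [map_mul, Complex.conj_ofReal]
        have : (z₀ * ((t : ℂ) * conj w)).re = t * (conj w * z₀).re := by
          rw [show z₀ * ((t : ℂ) * conj w) = (t : ℂ) * (conj w * z₀) by ring, Complex.re_ofReal_mul]
        rw [this]
        ring
      have h6 : (conj (z₀ + (t : ℂ) * w) * inner ℂ (u (φ k)) (X (u (φ k)))).re =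
          (conj z₀ * inner ℂ (u (φ k)) (X (u (φ k)))).re +
            t * (conj w * inner ℂ (u (φ k)) (X (u (φ k)))).re := by
        rw [map_add, map_mul, Complex.conj_ofReal, add_mul, Complex.add_re, mul_assoc,
          Complex.re_ofReal_mul]
      rw [h5, h6] at h3
      have h7 : t * (2 * (conj w * (inner ℂ (u (φ k)) (X (u (φ k))) - z₀)).re) ≤
          t * (t * ‖w‖ ^ 2) := by
        rw [mul_sub, Complex.sub_re]
        nlinarith [h3]
      have h8 := le_of_mul_le_mul_left h7 htpos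
      linarith
    have hc1 : Continuous (fun y : E => (conj w * (inner ℂ y (X y) - z₀)).re) := by fun_prop
    have h3 := (hc1.tendsto x).comp hlim
    have h4 : Tendsto (fun k : ℕ => (1 / 2) * ((1 : ℝ) / ((φ k : ℕ) + 1)) * ‖w‖ ^ 2) atTop
        (𝓝 ((1 / 2) * 0 * ‖w‖ ^ 2)) := (ht.const_mul _).mul_const _
    have h5 := le_of_tendsto_of_tendsto' h3 h4 h2
    simpa using h5

/-- The subspace of top vectors. -/
noncomputable def V (X : E →L[ℂ] E) (z₀ : ℂ) : Submodule ℂ E where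
  carrier := {x | g X z₀ x = G X z₀ * ‖x‖ ^ 2}
  zero_mem' := by simp [g]
  smul_mem' := by
    intro c x hx
    simp only [Set.mem_ofPred_eq] at hx ⊢
    rw [g_smul, hx, norm_smul]
    ring
  add_mem' := by
    intro x y hx hy
    simp only [Set.mem_ofPred_eq] at hx hy ⊢
    have hall : ∀ v : E, g X z₀ v ≤ G X z₀ * ‖v‖ ^ 2 := by
      intro v
      by_cases hv : v = 0
      · subst hv; simp [g]
      have hv' : ‖v‖ ≠ 0 := norm_ne_zero_iff.2 hv
      have h1 : v = ((‖v‖ : ℝ) : ℂ) • (((‖v‖⁻¹ : ℝ) : ℂ) • v) := by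
        rw [smul_smul, ← Complex.ofReal_mul, mul_inv_cancel₀ hv', Complex.ofReal_one, one_smul]
      have h2 : ‖(((‖v‖⁻¹ : ℝ) : ℂ) • v)‖ = 1 := by
        rw [norm_smul, Complex.norm_real, norm_inv, norm_norm, inv_mul_cancel₀ hv']
      rw [h1, g_smul, norm_smul, h2, Complex.norm_real, norm_norm]
      have := g_le_G X z₀ h2
      nlinarith [sq_nonneg ‖v‖]
    have h1 := g_parallelogram X z₀ x y
    have h2 := parallelogram_law_with_norm ℂ x y
    have h3 := hall (x + y)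
    have h4 := hall (x - y)
    refine le_antisymm h3 ?_
    have h5 : G X z₀ * (‖x + y‖ ^ 2 + ‖x - y‖ ^ 2) =
        G X z₀ * (2 * (‖x‖ ^ 2 + ‖y‖ ^ 2)) := by rw [h2]
    rw [hx, hy] at h1
    linarith

/-- A unit top vector with expectation `z₀`. -/
lemma exists_top [Nontrivial E] (X : E →L[ℂ] E) {z₀ : ℂ} (hz : ∀ z, G X z₀ ≤ G X z) :
    ∃ x : E, ‖x‖ = 1 ∧ g X z₀ x = G X z₀ ∧ inner ℂ x (X x) = z₀ := by
  set W : Submodule ℂ E := V X z₀ with hW
  have hmem : ∀ x : E, ‖x‖ = 1 → (x ∈ W ↔ g X z₀ x = G X z₀) := by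
    intro x hx
    have : x ∈ W ↔ g X z₀ x = G X z₀ * ‖x‖ ^ 2 := Iff.rfl
    rw [this, hx]; simp
  let A : W →L[ℂ] W := (W.orthogonalProjectionOnto).comp (X.comp W.subtypeL)
  have hA : ∀ x : W, inner ℂ x (A x) = inner ℂ (x : E) (X x) := by
    intro x
    exact Submodule.inner_orthogonalProjectionOnto_eq_of_mem_left x (X x)
  have hK := H640R2.PhaseMu.toeplitz_hausdorff A
  set K : Set ℂ := {z : ℂ | ∃ x : W, ‖x‖ = 1 ∧ inner ℂ x (A x) = z} with hKdef
  have hKc : IsCompact K := by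
    have : K = (fun x : W => inner ℂ x (A x)) '' Metric.sphere 0 1 := by
      ext z; simp [hKdef]
    rw [this]
    exact sphere_compact.image (by fun_prop)
  by_cases hmemK : z₀ ∈ K
  · obtain ⟨x, hx1, hx2⟩ := hmemK
    have hx1' : ‖(x : E)‖ = 1 := hx1
    refine ⟨x, hx1', (hmem x hx1').1 x.2, ?_⟩
    rw [← hA]; exact hx2
  · exfalso
    obtain ⟨f, u, hfu, huf⟩ := geometric_hahn_banach_point_closed hK hKc.isClosed hmemK
    have hfre : ∀ z : ℂ, f z = ((⟨f 1, -f Complex.I⟩ : ℂ) * z).re := by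
      intro z
      have : z = z.re • (1:ℂ) + z.im • Complex.I := by
        apply Complex.ext <;> simp
      conv_lhs => rw [this, map_add, map_smul, map_smul]
      simp
      ring
    obtain ⟨x, hx1, hx2, hx3⟩ := direction X hz (conj (⟨f 1, -f Complex.I⟩ : ℂ))
    rw [Complex.conj_conj, ← hfre, map_sub] at hx3
    have hxW : x ∈ W := (hmem x hx1).2 hx2
    have h1 := huf (inner ℂ x (X x)) ⟨⟨x, hxW⟩, hx1, hA ⟨x, hxW⟩⟩
    linarith

end Pool.Agent.J4.H91.CQ
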