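import Pool.Agent.Helper654.PtakL

/-!
# The von Neumann inequality for matrices
-/

set_option autoImplicit false

open Polynomial Filter Topology

namespace Pool.Agent.J4.H91.CQ

variable {n : ℕ}

/-- a product of linear factors with roots of absolute value at most `r` which annihilates `T` -/
theorem exists_ann (T : EuclideanSpace ℂ (Fin n) →L[ℂ] EuclideanSpace ℂ (Fin n))
    {r : ℝ} (hr0 : 0 < r) (hT : ‖T‖ ≤ r) :
    ∃ (m : ℕ) (z : Fin (m + 1) → ℂ), (∀ j, ‖z j‖ ≤ r) ∧ aeval T (∏ j, (X - C (z j))) = 0 := by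
  let f : Module.End ℂ (EuclideanSpace ℂ (Fin n)) :=
    (T : EuclideanSpace ℂ (Fin n) →ₗ[ℂ] EuclideanSpace ℂ (Fin n))
  have hint : IsIntegral ℂ f := Algebra.IsIntegral.isIntegral f
  have hmon := minpoly.monic hint
  have hsp : (minpoly ℂ f).Splits := IsAlgClosed.splits _
  have hprod := hsp.eq_prod_roots_of_monic hmon
  obtain ⟨l, hl⟩ : ∃ l : List ℂ, (l : Multiset ℂ) = (minpoly ℂ f).roots :=
    ⟨(minpoly ℂ f).roots.toList, Multiset.coe_toList _⟩
  have hroot : ∀ x ∈ l, ‖x‖ ≤ r := by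
    intro x hx
    have h1 : x ∈ (minpoly ℂ f).roots := by rw [← hl]; exact hx
    have h2 : (minpoly ℂ f).IsRoot x := (Polynomial.mem_roots'.1 h1).2
    have h3 := Module.End.hasEigenvalue_of_isRoot h2
    obtain ⟨v, hv⟩ := h3.exists_hasEigenvector
    have h4 : T v = x • v := hv.apply_eq_smul
    have h5 : v ≠ 0 := hv.2
    have h6 := T.le_opNorm v
    rw [h4, norm_smul] at h6
    exact (le_of_mul_le_mul_right h6 (norm_pos_iff.2 h5)).trans hT
  have hann : aeval f (minpoly ℂ f) = 0 := minpoly.aeval ℂ f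
  refine ⟨l.length, Fin.cons 0 l.get, ?_, ?_⟩
  · intro j
    refine Fin.cases ?_ (fun i => ?_) j
    · simp only [Fin.cons_zero, norm_zero]
      exact hr0.le
    · simp only [Fin.cons_succ]
      exact hroot _ (List.get_mem l i)
  · have e1 : (∏ j, (X - C ((Fin.cons 0 l.get : Fin (l.length + 1) → ℂ) j)) : ℂ[X]) =
        X * minpoly ℂ f := by
      rw [Fin.prod_univ_succ]
      simp only [Fin.cons_zero, Fin.cons_succ, map_zero, sub_zero]
      congr 1
      rw [hprod, ← hl, Multiset.map_coe, Multiset.prod_coe]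
      rw [← List.prod_ofFn]
      congr 1
      conv_rhs => rw [← List.ofFn_get l]
      rw [List.map_ofFn]
      rfl
    rw [e1, map_mul]
    have e2 : aeval T (minpoly ℂ f) = 0 := by
      ext x : 1
      let φ : (EuclideanSpace ℂ (Fin n) →L[ℂ] EuclideanSpace ℂ (Fin n)) →ₐ[ℂ]
          Module.End ℂ (EuclideanSpace ℂ (Fin n)) :=
        { toFun := fun A => (A : EuclideanSpace ℂ (Fin n) →ₗ[ℂ] EuclideanSpace ℂ (Fin n))
          map_one' := rfl
          map_mul' := fun _ _ => rfl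
          map_zero' := rfl
          map_add' := fun _ _ => rfl
          commutes' := fun _ => rfl }
      have h := Polynomial.aeval_algHom_apply φ T (minpoly ℂ f)
      have h2 : (φ (aeval T (minpoly ℂ f))) x = (aeval f (minpoly ℂ f)) x := by
        rw [← h]
        rfl
      rw [hann] at h2
      exact h2
    rw [e2, mul_zero]

theorem vN_lt [NeZero n] (T : EuclideanSpace ℂ (Fin n) →L[ℂ] EuclideanSpace ℂ (Fin n))
    {r : ℝ} (hr0 : 0 < r) (hr1 : r < 1) (hT : ‖T‖ ≤ r) (F : ℂ[X]) (M : ℝ)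
    (hF : ∀ ζ : ℂ, ‖ζ‖ = 1 → ‖F.eval ζ‖ ≤ M) : ‖aeval T F‖ ≤ M := by
  obtain ⟨m, z, hz, hp⟩ := exists_ann T hr0 hT
  exact Helper654.Ptak.vN_poly hr0 hr1 z hz T (hT.trans hr1.le) hp F M hF

/-- **von Neumann's inequality** for a matrix -/
theorem vN [NeZero n] (T : EuclideanSpace ℂ (Fin n) →L[ℂ] EuclideanSpace ℂ (Fin n))
    (hT : ‖T‖ ≤ 1) (F : ℂ[X]) (M : ℝ)
    (hF : ∀ ζ : ℂ, ‖ζ‖ = 1 → ‖F.eval ζ‖ ≤ M) : ‖aeval T F‖ ≤ M := by
  have hc : Continuous (fun t : ℝ => ‖aeval ((t : ℂ) • T) F‖) := by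
    simp only [Polynomial.aeval_eq_sum_range]
    fun_prop
  have hlim : Tendsto (fun t : ℝ => ‖aeval ((t : ℂ) • T) F‖) (𝓝[<] 1) (𝓝 ‖aeval T F‖) := by
    have h := (hc.tendsto 1).mono_left (nhdsWithin_le_nhds (s := Set.Iio (1 : ℝ)))
    simpa using h
  refine le_of_tendsto hlim ?_
  have h0 : ∀ᶠ t : ℝ in 𝓝[<] 1, 0 < t := by
    have : ∀ᶠ t : ℝ in 𝓝 1, 0 < t := lt_mem_nhds one_pos
    exact this.filter_mono nhdsWithin_le_nhds
  filter_upwards [h0, self_mem_nhdsWithin] with t ht0 ht1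
  have ht1' : t < 1 := ht1
  apply vN_lt ((t : ℂ) • T) ht0 ht1' _ F M hF
  rw [norm_smul, Complex.norm_real, Real.norm_eq_abs, abs_of_pos ht0]
  calc t * ‖T‖ ≤ t * 1 := mul_le_mul_of_nonneg_left hT ht0.le
    _ = t := mul_one t

end Pool.Agent.J4.H91.CQ
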