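import Pool.Agent.J4.H91.CQ.Centre
import Pool.Agent.J4.H91.CQ.VN

/-!
# Scaled `q`-numerical ranges: the circle about the centre
-/

set_option autoImplicit false

open Polynomial ComplexConjugate

namespace Pool.Agent.J4.H91.CQ

variable {n : ℕ}

/-- two orthogonal unit vectors exist in dimension at least two -/
theorem exists_perp (hn : 2 ≤ n) {x : EuclideanSpace ℂ (Fin n)} (hx : x ≠ 0) :
    ∃ u : EuclideanSpace ℂ (Fin n), ‖u‖ = 1 ∧ inner ℂ x u = 0 := by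
  have h1 : (ℂ ∙ x)ᗮ ≠ ⊥ := by
    intro h
    have h2 := Submodule.finrank_add_finrank_orthogonal (K := (ℂ ∙ x))
    rw [h, finrank_bot, finrank_euclideanSpace_fin] at h2
    have h3 := finrank_span_singleton (K := ℂ) hx
    omega
  obtain ⟨v, hv, hv0⟩ := Submodule.exists_mem_ne_zero_of_ne_bot h1
  have hv' : ‖v‖ ≠ 0 := norm_ne_zero_iff.2 hv0
  refine ⟨((‖v‖⁻¹ : ℝ) : ℂ) • v, ?_, ?_⟩
  · rw [norm_smul, Complex.norm_real, norm_inv, norm_norm, inv_mul_cancel₀ hv']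
  · rw [inner_smul_right, Submodule.mem_orthogonal_singleton_iff_inner_right.1 hv, mul_zero]

/-- the scaled `q`-numerical range `Ω_q = W_q(A) / q` -/
def Om (A : EuclideanSpace ℂ (Fin n) →L[ℂ] EuclideanSpace ℂ (Fin n)) (q : ℂ) : Set ℂ :=
  {w | ∃ x y : EuclideanSpace ℂ (Fin n), ‖x‖ = 1 ∧ ‖y‖ = 1 ∧ inner ℂ y x = q ∧
    w = inner ℂ y (A x) / q}

/-- if `A x = c x + R u` with `u` a unit vector orthogonal to the unit vector `x`, then the circle
of radius `κ R` about `c` is in `Ω_q`, `κ = √(1 - |q|²) / |q|` -/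
theorem circle_sub (A : EuclideanSpace ℂ (Fin n) →L[ℂ] EuclideanSpace ℂ (Fin n)) {q : ℂ}
    (hq0 : q ≠ 0) (hq1 : ‖q‖ ≤ 1) {x u : EuclideanSpace ℂ (Fin n)} (hx : ‖x‖ = 1) (hu : ‖u‖ = 1)
    (hxu : inner ℂ x u = 0) {c : ℂ} {R : ℝ} (hA : A x = c • x + (R : ℂ) • u) {ζ : ℂ}
    (hζ : ‖ζ‖ = 1) : c + (((√(1 - ‖q‖ ^ 2) / ‖q‖) * R : ℝ) : ℂ) * ζ ∈ Om A q := by
  have hqn : 0 < ‖q‖ := norm_pos_iff.2 hq0
  have hs : 0 ≤ 1 - ‖q‖ ^ 2 := by nlinarith
  obtain ⟨β, hβ⟩ : ∃ β : ℂ, β = ((√(1 - ‖q‖ ^ 2) / ‖q‖ : ℝ) : ℂ) * q * ζ := ⟨_, rfl⟩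
  have hβn : ‖β‖ ^ 2 = 1 - ‖q‖ ^ 2 := by
    rw [hβ, norm_mul, norm_mul, hζ, mul_one, Complex.norm_real, Real.norm_eq_abs,
      abs_of_nonneg (by positivity), div_mul_cancel₀ _ hqn.ne', Real.sq_sqrt hs]
  have hxx : inner ℂ x x = (1 : ℂ) := by rw [inner_self_eq_norm_sq_to_K, hx]; simp
  have huu : inner ℂ u u = (1 : ℂ) := by rw [inner_self_eq_norm_sq_to_K, hu]; simp
  have hux : inner ℂ u x = 0 := by rw [← inner_conj_symm, hxu, map_zero]
  refine ⟨x, conj q • x + conj β • u, hx, ?_, ?_, ?_⟩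
  · have h : ‖conj q • x + conj β • u‖ ^ 2 = 1 := by
      rw [@norm_add_sq ℂ]
      simp only [inner_smul_left, inner_smul_right, hxu, norm_smul, RCLike.norm_conj, hx, hu]
      simp
      linarith
    have h2 := norm_nonneg (conj q • x + conj β • u)
    nlinarith
  · rw [inner_add_left, inner_smul_left, inner_smul_left, hxx, hux]
    simp
  · rw [hA]
    simp only [inner_add_left, inner_add_right, inner_smul_left, inner_smul_right, hxx, huu, hux,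
      hxu, Complex.conj_conj]
    rw [hβ]
    push_cast
    field_simp
    ring

/-- the inequality with constant `1` for `|q| ≤ 1/√2` -/
theorem main (hn : 2 ≤ n) (A : EuclideanSpace ℂ (Fin n) →L[ℂ] EuclideanSpace ℂ (Fin n)) {q : ℂ}
    (hq0 : q ≠ 0) (hq : ‖q‖ ^ 2 ≤ 1 / 2) (p : ℂ[X]) (M : ℝ)
    (hM : ∀ z ∈ Om A q, ‖p.eval z‖ ≤ M) : ‖aeval A p‖ ≤ M := by
  have : NeZero n := ⟨by omega⟩
  have : Nontrivial (EuclideanSpace ℂ (Fin n)) := by
    apply Module.nontrivial_of_finrank_pos (R := ℂ)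
    rw [finrank_euclideanSpace_fin]
    omega
  have hqn : 0 < ‖q‖ := norm_pos_iff.2 hq0
  have hq1 : ‖q‖ ≤ 1 := by nlinarith
  obtain ⟨c, hc⟩ := exists_min A
  obtain ⟨x, hx1, hx2, hx3⟩ := exists_top A hc
  -- the norm of `A - c`
  obtain ⟨B, hB⟩ : ∃ B : EuclideanSpace ℂ (Fin n) →L[ℂ] EuclideanSpace ℂ (Fin n),
    B = A - c • 1 := ⟨_, rfl⟩
  obtain ⟨R, hR⟩ : ∃ R : ℝ, R = ‖B x‖ := ⟨_, rfl⟩
  have hBx : ∀ y, B y = A y - c • y := fun y => by rw [hB]; rfl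
  have hR0 : 0 ≤ R := by rw [hR]; exact norm_nonneg _
  have hBn : ‖B‖ ≤ R := by
    refine B.opNorm_le_bound hR0 fun y => ?_
    by_cases hy : y = 0
    · rw [hy, map_zero, norm_zero, mul_zero]
    · have hy' : 0 < ‖y‖ := norm_pos_iff.2 hy
      have h1 : ‖(((‖y‖⁻¹ : ℝ) : ℂ) • y)‖ = 1 := by
        rw [norm_smul, Complex.norm_real, norm_inv, norm_norm, inv_mul_cancel₀ hy'.ne']
      have h2 := g_le_G A c h1
      rw [← hx2] at h2
      unfold g at h2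
      rw [← hBx, ← hBx, ← hR, map_smul, norm_smul, Complex.norm_real, norm_inv, norm_norm] at h2
      have h3 : ‖y‖⁻¹ * ‖B y‖ ≤ R := le_of_sq_le_sq h2 hR0
      rw [inv_mul_le_iff₀ hy'] at h3
      linarith
  have hxx : inner ℂ x x = (1 : ℂ) := by rw [inner_self_eq_norm_sq_to_K, hx1]; simp
  have hxB : inner ℂ x (B x) = 0 := by
    rw [hBx, inner_sub_right, inner_smul_right, hx3, hxx]
    ring
  -- the unit vector `u`
  obtain ⟨u, hu1, hu2, hu3⟩ : ∃ u : EuclideanSpace ℂ (Fin n), ‖u‖ = 1 ∧ inner ℂ x u = 0 ∧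
      A x = c • x + (R : ℂ) • u := by
    rcases hR0.lt_or_eq with h | h
    · refine ⟨((R⁻¹ : ℝ) : ℂ) • B x, ?_, ?_, ?_⟩
      · rw [norm_smul, Complex.norm_real, norm_inv, Real.norm_of_nonneg hR0, ← hR,
          inv_mul_cancel₀ h.ne']
      · rw [inner_smul_right, hxB, mul_zero]
      · rw [smul_smul, ← Complex.ofReal_mul, mul_inv_cancel₀ h.ne', Complex.ofReal_one, one_smul,
          hBx]
        abel
    · obtain ⟨u, hu1, hu2⟩ := exists_perp hn (x := x) (by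
        intro h0; rw [h0, norm_zero] at hx1; norm_num at hx1)
      refine ⟨u, hu1, hu2, ?_⟩
      have h1 : B x = 0 := norm_eq_zero.1 (by rw [← hR, ← h])
      rw [hBx] at h1
      rw [← h]
      simp only [Complex.ofReal_zero, zero_smul, add_zero]
      exact sub_eq_zero.1 h1
  obtain ⟨κ, hκ⟩ : ∃ κ : ℝ, κ = √(1 - ‖q‖ ^ 2) / ‖q‖ := ⟨_, rfl⟩
  have hκ1 : 1 ≤ κ := by
    rw [hκ, le_div_iff₀ hqn, one_mul]
    apply Real.le_sqrt_of_sq_le
    linarith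
  have hcirc : ∀ ζ : ℂ, ‖ζ‖ = 1 → ‖p.eval (c + ((κ * R : ℝ) : ℂ) * ζ)‖ ≤ M := by
    intro ζ hζ
    apply hM
    rw [hκ]
    exact circle_sub A hq0 hq1 hx1 hu1 hu2 hu3 hζ
  have hA : A = c • 1 + B := by rw [hB]; abel
  rcases hR0.lt_or_eq with h | h
  · -- `T = (A - c) / (κ R)`
    have hκR : 0 < κ * R := by positivity
    obtain ⟨T, hT⟩ : ∃ T : EuclideanSpace ℂ (Fin n) →L[ℂ] EuclideanSpace ℂ (Fin n),
      T = (((κ * R)⁻¹ : ℝ) : ℂ) • B := ⟨_, rfl⟩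
    have hTn : ‖T‖ ≤ 1 := by
      rw [hT, norm_smul, Complex.norm_real, Real.norm_of_nonneg (by positivity),
        inv_mul_le_iff₀ hκR, mul_one]
      nlinarith
    have h1 := vN T hTn (p.comp (C c + C ((κ * R : ℝ) : ℂ) * X)) M (by
      intro ζ hζ
      rw [eval_comp]
      simpa using hcirc ζ hζ)
    rw [aeval_comp] at h1
    have h2 : aeval T (C c + C ((κ * R : ℝ) : ℂ) * X) = A := by
      rw [map_add, map_mul, aeval_C, aeval_C, aeval_X, Algebra.algebraMap_eq_smul_one,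
        Algebra.algebraMap_eq_smul_one, smul_one_mul, hT, smul_smul, ← Complex.ofReal_mul,
        mul_inv_cancel₀ hκR.ne', Complex.ofReal_one, one_smul, ← hA]
    rwa [h2] at h1
  · -- `A = c`
    have hB0 : B = 0 := norm_eq_zero.1 (le_antisymm (hBn.trans h.symm.le) (norm_nonneg _))
    have h1 : A = algebraMap ℂ _ c := by
      rw [hA, hB0, add_zero, Algebra.algebraMap_eq_smul_one]
    rw [h1, aeval_algebraMap_apply, Algebra.algebraMap_eq_smul_one, norm_smul]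
    have h2 := hcirc 1 norm_one
    rw [← h] at h2
    simp only [mul_zero, Complex.ofReal_zero, zero_mul, add_zero] at h2
    have h3 : ‖(1 : EuclideanSpace ℂ (Fin n) →L[ℂ] EuclideanSpace ℂ (Fin n))‖ = 1 := norm_one
    rw [h3, mul_one]
    simpa using h2

end Pool.Agent.J4.H91.CQ
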