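import Pool.Agent.J4.H91.CQ.Main

/-!
# Scaled `q`-numerical ranges are spectral sets for `0 < |q| ≤ 1/√2`

For `|q| ≤ 4/5` the constant `c(q)` of the question is `1`. We prove the inequality
`‖p(A)‖ ≤ sup_{Ω_q} |p|` for all matrices of size at least two, all polynomials and all `q` with
`0 < |q| ≤ 1/√2`.

Idea: let `c` be the scalar with the smallest `‖A - c‖ = R`. There is a unit vector `x` with
`⟨A x, x⟩ = c` and `‖(A - c) x‖ = R`; so `Ω_q` contains the circle of radius `R √(1 - |q|²) / |q|`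
about `c`, which is at least `R` exactly when `|q| ≤ 1/√2`; then von Neumann's inequality applies.
-/

set_option autoImplicit false

open Polynomial

namespace Pool.Agent.J4.H91.CQ.SmallParameter

/-- the operator norm of a complex matrix which is induced by the Euclidean norm -/
noncomputable def opNorm {n : ℕ} (B : Matrix (Fin n) (Fin n) ℂ) : ℝ :=
  ‖Matrix.toEuclideanCLM (n := Fin n) (𝕜 := ℂ) B‖

/-- the `q`-numerical range `W_q(A) = {⟨A x, y⟩ : ‖x‖ = ‖y‖ = 1, ⟨x, y⟩ = q}`, where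
`⟨x, y⟩ = ∑ x_i conj y_i` is `inner ℂ y x` -/
def Wq {n : ℕ} (q : ℂ) (A : Matrix (Fin n) (Fin n) ℂ) : Set ℂ :=
  {w | ∃ x y : EuclideanSpace ℂ (Fin n), ‖x‖ = 1 ∧ ‖y‖ = 1 ∧ inner ℂ y x = q ∧
    w = inner ℂ y (Matrix.toEuclideanCLM (n := Fin n) (𝕜 := ℂ) A x)}

/-- the scaled `q`-numerical range `Ω_q = W_q(A) / q` -/
def Omega {n : ℕ} (q : ℂ) (A : Matrix (Fin n) (Fin n) ℂ) : Set ℂ :=
  {z | ∃ w ∈ Wq q A, z = w / q}

theorem omega_eq {n : ℕ} (q : ℂ) (A : Matrix (Fin n) (Fin n) ℂ) :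
    Omega q A = J4.H91.CQ.Om (Matrix.toEuclideanCLM (n := Fin n) (𝕜 := ℂ) A) q := by
  ext z
  constructor
  · rintro ⟨w, ⟨x, y, hx, hy, hxy, rfl⟩, rfl⟩
    exact ⟨x, y, hx, hy, hxy, rfl⟩
  · rintro ⟨x, y, hx, hy, hxy, rfl⟩
    exact ⟨_, ⟨x, y, hx, hy, hxy, rfl⟩, rfl⟩

theorem bdd {n : ℕ} (q : ℂ) (A : Matrix (Fin n) (Fin n) ℂ) (p : ℂ[X]) :
    BddAbove ((fun z => ‖p.eval z‖) '' Omega q A) := by
  have h1 : Omega q A ⊆ Metric.closedBall 0 (opNorm A / ‖q‖) := by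
    rintro z ⟨w, ⟨x, y, hx, hy, -, rfl⟩, rfl⟩
    rw [mem_closedBall_zero_iff, norm_div]
    apply div_le_div_of_nonneg_right _ (norm_nonneg _)
    refine (norm_inner_le_norm _ _).trans ?_
    rw [hy, one_mul]
    have h := (Matrix.toEuclideanCLM (n := Fin n) (𝕜 := ℂ) A).le_opNorm x
    rw [hx, mul_one] at h
    exact h
  have h2 : IsCompact ((fun z => ‖p.eval z‖) '' Metric.closedBall (0 : ℂ) (opNorm A / ‖q‖)) :=
    (isCompact_closedBall _ _).image (by fun_prop)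
  exact h2.bddAbove.mono (Set.image_mono h1)

/-- For every complex matrix `A` of size `n ≥ 2`, every complex `q` with `0 < |q| ≤ 1/√2` and every
complex polynomial `p`, `‖p(A)‖ ≤ sup_{z ∈ Ω_q} |p(z)|`. -/
theorem result {n : ℕ} (hn : 2 ≤ n) (A : Matrix (Fin n) (Fin n) ℂ) (q : ℂ) (hq0 : q ≠ 0)
    (hq : ‖q‖ ≤ 1 / √2) (p : ℂ[X]) :
    BddAbove ((fun z => ‖p.eval z‖) '' Omega q A) ∧
      opNorm (aeval A p) ≤ sSup ((fun z => ‖p.eval z‖) '' Omega q A) := by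
  refine ⟨bdd q A p, ?_⟩
  have h1 : ‖q‖ ^ 2 ≤ 1 / 2 := by
    have h2 : ‖q‖ ^ 2 ≤ (1 / √2) ^ 2 := pow_le_pow_left₀ (norm_nonneg _) hq 2
    rw [div_pow, Real.sq_sqrt (by norm_num), one_pow] at h2
    exact h2
  have h3 := J4.H91.CQ.main hn (Matrix.toEuclideanCLM (n := Fin n) (𝕜 := ℂ) A) hq0 h1 p
    (sSup ((fun z => ‖p.eval z‖) '' Omega q A)) (by
      intro z hz
      rw [← omega_eq] at hz
      exact le_csSup (bdd q A p) ⟨z, hz, rfl⟩)
  unfold opNorm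
  have h4 := Polynomial.aeval_algHom_apply
    (Matrix.toEuclideanCLM (n := Fin n) (𝕜 := ℂ)).toAlgEquiv.toAlgHom A p
  have h5 : Matrix.toEuclideanCLM (n := Fin n) (𝕜 := ℂ) (aeval A p) =
      aeval (Matrix.toEuclideanCLM (n := Fin n) (𝕜 := ℂ) A) p := h4.symm
  rw [h5]
  exact h3

end Pool.Agent.J4.H91.CQ.SmallParameter
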